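import Pool.Agent.Q205.QErg.Surf

/-!
# Families of metrics with ergodic geodesic flow in a conformal class

`(M, g)` is a closed surface with a continuous Riemannian metric (`Data`, `Data.IsSurf`: charts,
orthonormal coframes, area; `Data.IsEig`: eigenfunctions of the Laplacian in the weak sense; these are
definitions of the starting files, project QE). From `Pool/Agent/Q205/QErg/Surf.lean`:

* `surf D φ`, `area μ φ`: the surface with the metric `exp φ · g` and its area;
* `UnitEig D μ φ lam u`: `u` is an eigenfunction of `exp φ · g` with the eigenvalue `lam` and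
  `∫ u² dA = 1`;
* `mass μ f φ u = ∫ f u² dA`, `mean μ f φ`: the mean value of `f` for the metric `exp φ · g`;
* `QUE D μ φ`: every sequence of normalised eigenfunctions of `exp φ · g` whose eigenvalues tend to
  infinity is equidistributed.

`X` is any topological space and `κ : X → C(M)` any continuous map, the family of the metrics
`exp (κ x) · g`. For the problem `X` is, for instance, the set of all `φ ∈ C^∞(M)` for which the
geodesic flow of `exp φ · g` is ergodic (a `G_δ`, hence a Baire space), or any other family of ergodic
metrics. No eigenvalue is assumed to be simple, and all eigenfunctions are considered, not only the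
members of one basis. Generic: for all points of a residual subset of `X`.
-/

set_option autoImplicit false

namespace Pool.Agent.Results.MP_ed6ab2_an.FamiliesOfErgodicMetrics

open Set Filter Topology MeasureTheory
open Pool.Agent.Y262.QE Pool.Agent.Q205.QErg

/-- **Theorem.** Let `(M, g)` be a closed surface and `exp (κ x) · g`, `x ∈ X`, a continuous family of
metrics.

1. Either for generic `x` every sequence of normalised eigenfunctions with eigenvalues tending to
   infinity is equidistributed, or there are a continuous function `f`, a number `ε > 0` and a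
   nonempty open set `U ⊆ X` such that for generic `x ∈ U` there are normalised eigenfunctions `u`
   with arbitrarily large eigenvalues for which `∫ f u² dA` differs from the mean value of `f` by at
   least `ε`.
2. If `X` is a Baire space and the first alternative holds, then equidistribution is locally uniform:
   for every continuous `f` and every `ε > 0` there is a dense open set `W ⊆ X` such that every point
   of `W` has an open neighbourhood `V` and a number `Λ` such that for generic `x ∈ V` all normalised
   eigenfunctions `u` with an eigenvalue at least `Λ` satisfy `|∫ f u² dA - mean of f| < ε`. -/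
theorem result (M : Type) [MetricSpace M] [CompactSpace M] [MeasurableSpace M] [BorelSpace M]
    [Nonempty M] (μ : Measure M) (D : Data M) (hD : D.IsSurf μ) (X : Type) [TopologicalSpace X]
    (κ : X → C(M, ℝ)) (hκ : Continuous κ) :
    ((∀ᶠ x in residual X, QUE D μ (κ x)) ∨
      ∃ (f : C(M, ℝ)) (ε : ℝ) (U : Set X), 0 < ε ∧ IsOpen U ∧ U.Nonempty ∧
        ∀ᶠ x in residual X, x ∈ U → ∀ Λ : ℝ, ∃ (lam : ℝ) (u : M → ℝ), Λ ≤ lam ∧
          UnitEig D μ (κ x) lam u ∧ ε ≤ |mass μ f (κ x) u - mean μ f (κ x)|) ∧
    (BaireSpace X → (∀ᶠ x in residual X, QUE D μ (κ x)) → ∀ (f : C(M, ℝ)) (ε : ℝ), 0 < ε →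
      ∃ W : Set X, IsOpen W ∧ Dense W ∧ ∀ x₀ ∈ W, ∃ V : Set X, IsOpen V ∧ x₀ ∈ V ∧ ∃ Λ : ℝ,
        ∀ᶠ x in residual X, x ∈ V → ∀ (lam : ℝ) (u : M → ℝ), Λ ≤ lam →
          UnitEig D μ (κ x) lam u → |mass μ f (κ x) u - mean μ f (κ x)| < ε) := by
  refine ⟨que_or_scars μ D hD κ hκ, fun hX h f ε hε => ?_⟩
  exact que_uniform μ D hD κ hκ h f hε

end Pool.Agent.Results.MP_ed6ab2_an.FamiliesOfErgodicMetrics
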