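import Pool.Agent.Q205.QCont.Main

/-!
# The set of quantum limits is a continuous function of generic metrics

`(M, g)` is a closed surface with a continuous Riemannian metric (`Data`, `Data.IsSurf`: charts,
orthonormal coframes, area; `Data.IsEig`: eigenfunctions of the Laplacian in the weak sense; these are
definitions of the starting files, project QE). From `Pool/Agent/Q205/QErg/Surf.lean`:

* `surf D φ`, `area μ φ`: the surface with the metric `exp φ · g` and its area;
* `UnitEig D μ φ lam u`: `u` is an eigenfunction of `exp φ · g` with the eigenvalue `lam` and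
  `∫ u² dA = 1`;
* `mass μ f φ u = ∫ f u² dA`, `mean μ f φ`: the mean value of `f` for the metric `exp φ · g`;
* `QUE D μ φ`: every sequence of normalised eigenfunctions of `exp φ · g` whose eigenvalues tend to
  infinity is equidistributed.

From `Pool/Agent/Q205/QCont/Main.lean`, for a measure `ν` on `M`:

* `IsQuantumLimit D μ φ ν`: `∫ f (u k)² dA → ∫ f dν` for all continuous `f`, for some sequence of
  normalised eigenfunctions `u k` of `exp φ · g` with eigenvalues tending to infinity;
* `CloseTo D μ φ ν S ε Λ`: there is a normalised eigenfunction `u` of `exp φ · g` with an eigenvalue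
  at least `Λ` such that `|∫ f u² dA - ∫ f dν| < ε` for all `f` in the finite set `S ⊆ C(M)`.

`X` is any topological space and `κ : X → C(M)` any continuous map, the family of the metrics
`exp (κ x) · g`. For the problem `X` is, for instance, the set of all `φ ∈ C^∞(M)` for which the
geodesic flow of `exp φ · g` is ergodic, or any other family of ergodic metrics. No eigenvalue is
assumed to be simple, and all eigenfunctions are considered, not only the members of one basis.
-/

set_option autoImplicit false

namespace Pool.Agent.Results.MP_ed6ab2_an.QuantumLimitsVaryContinuously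

open Set Filter Topology MeasureTheory
open Pool.Agent.Y262.QE Pool.Agent.Q205.QErg Pool.Agent.Q205.QCont

/-- **Theorem.** Let `(M, g)` be a closed surface and `exp (κ x) · g`, `x ∈ X`, a continuous family of
metrics. There is a residual set `G ⊆ X` such that for every `x ∈ G`:

1. every quantum limit `ν` of `x` persists for ALL nearby metrics: for every finite set `S` of
   continuous functions, `ε > 0` and `Λ`, all metrics near `x` have a normalised eigenfunction with an
   eigenvalue at least `Λ` whose square is `(S, ε)`-close to `ν`;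
2. conversely `ν` is a quantum limit of `x` if, for all `S`, `ε`, `Λ`, arbitrarily close to `x` there
   are metrics of `G` with such an eigenfunction (in particular every limit of quantum limits of
   metrics of `G` tending to `x` is a quantum limit of `x`);
3. if all sequences of normalised eigenfunctions of the one metric `x` with eigenvalues tending to
   infinity are equidistributed, then this is uniform near `x`: for every continuous `f` and `ε > 0`
   there is a `Λ` such that for all metrics of `G` near `x` all normalised eigenfunctions `u` with an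
   eigenvalue at least `Λ` satisfy `|∫ f u² dA - mean of f| < ε`;

and for every finite measure `ν` on `M` there are disjoint open sets `U₁`, `U₂` with dense union such
that `ν` is a quantum limit of all `x ∈ G ∩ U₁`, and for every `x ∈ U₂` there are `S`, `ε > 0`, `Λ`
such that no metric of `G` near `x` has an eigenfunction as in 1. -/
theorem result (M : Type) [MetricSpace M] [CompactSpace M] [MeasurableSpace M] [BorelSpace M]
    [Nonempty M] (μ : Measure M) (D : Data M) (hD : D.IsSurf μ) (X : Type) [TopologicalSpace X]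
    (κ : X → C(M, ℝ)) (hκ : Continuous κ) :
    ∃ G ∈ residual X,
      (∀ x ∈ G,
        (∀ ν : Measure M, IsFiniteMeasure ν → IsQuantumLimit D μ (κ x) ν →
          ∀ (S : Finset C(M, ℝ)) (ε Λ : ℝ), 0 < ε → ∀ᶠ x' in 𝓝 x, CloseTo D μ (κ x') ν S ε Λ) ∧
        (∀ ν : Measure M, IsFiniteMeasure ν →
          (∀ (S : Finset C(M, ℝ)) (ε Λ : ℝ), 0 < ε →
            ∃ᶠ x' in 𝓝 x, x' ∈ G ∧ CloseTo D μ (κ x') ν S ε Λ) → IsQuantumLimit D μ (κ x) ν) ∧
        (QUE D μ (κ x) → ∀ (f : C(M, ℝ)) (ε : ℝ), 0 < ε → ∃ Λ : ℝ, ∀ᶠ x' in 𝓝 x, x' ∈ G →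
          ∀ (lam : ℝ) (u : M → ℝ), Λ ≤ lam → UnitEig D μ (κ x') lam u →
            |mass μ f (κ x') u - mean μ f (κ x')| < ε)) ∧
      ∀ ν : Measure M, IsFiniteMeasure ν → ∃ U₁ U₂ : Set X, IsOpen U₁ ∧ IsOpen U₂ ∧
        Disjoint U₁ U₂ ∧ Dense (U₁ ∪ U₂) ∧ (∀ x ∈ G, x ∈ U₁ → IsQuantumLimit D μ (κ x) ν) ∧
        ∀ x ∈ U₂, ∃ (S : Finset C(M, ℝ)) (ε Λ : ℝ), 0 < ε ∧
          ∀ᶠ x' in 𝓝 x, x' ∈ G → ¬CloseTo D μ (κ x') ν S ε Λ := by
  obtain ⟨G, hG, h⟩ := generic_continuity μ D hD κ hκ
  refine ⟨G, hG, h, fun ν hν => ?_⟩
  set U₂ : Set X := {x | ∃ (S : Finset C(M, ℝ)) (ε Λ : ℝ), 0 < ε ∧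
    ∀ᶠ x' in 𝓝 x, x' ∈ G → ¬CloseTo D μ (κ x') ν S ε Λ} with hU₂
  have ho : IsOpen U₂ := by
    rw [isOpen_iff_mem_nhds]
    rintro x ⟨S, ε, Λ, hε, hx⟩
    filter_upwards [hx.eventually_nhds] with y hy
    exact ⟨S, ε, Λ, hε, hy⟩
  refine ⟨interior U₂ᶜ, U₂, isOpen_interior, ho, ?_, ?_, ?_, fun x hx => hx⟩
  · exact disjoint_compl_left.mono_left interior_subset
  · have h1 : interior U₂ᶜ ∪ U₂ = (frontier U₂)ᶜ := by
      ext x
      rw [interior_compl, mem_union, mem_compl_iff, mem_compl_iff, ho.frontier_eq, Set.mem_sdiff]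
      tauto
    rw [h1]
    have h2 : interior (frontier U₂) = ∅ := by
      rw [← frontier_compl]
      exact interior_frontier ho.isClosed_compl
    exact interior_eq_empty_iff_dense_compl.1 h2
  · intro x hxG hx
    refine (h x hxG).2.1 ν hν fun S ε Λ hε => ?_
    have hx2 : x ∉ U₂ := interior_subset hx
    by_contra hcon
    refine hx2 ⟨S, ε, Λ, hε, ?_⟩
    rw [not_frequently] at hcon
    filter_upwards [hcon] with x' hx' hG' hc
    exact hx' ⟨hG', hc⟩

end Pool.Agent.Results.MP_ed6ab2_an.QuantumLimitsVaryContinuously
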